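import Pool.Agent.X254.Circ9

/-!
# MP_d6eb29_al, Q1: circulant matrices with prescribed unit determinant over finite chain rings

`R` is a commutative finite chain ring with maximal ideal `γ R`, nilpotency index `e`, residue
field of `q = p ^ f` elements, and `n = p ^ s * m` with `p ∤ m` (so `gcd(n, q) ≠ 1` means `s ≥ 1`).
Let `G_s(R)` be the set of all sums `∑_{i ≤ s} p ^ i * x_i ^ (p ^ (s - i))` with `x_i ∈ R`.
For every unit `a` of `R`:

* if `a ∉ G_s(R)` then `c_n(R, a) = 0`;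
* if `a ∈ G_s(R)` then `c_n(R, a)` is
  `q ^ (e n) / |G_s(R)| * ∏_{d ∣ m, d ≠ 1} (1 - q ^ (-ord_d(q))) ^ (φ(d) / ord_d(q))`.

Moreover every unit is a circulant determinant of size `n` (and `c_n(R, ·)` is constant on the
units) exactly when `p ∤ n` or `p R = γ R`.

Size of `G_s(R)`: let `p R = γ ^ k R` with `k ≤ e`, and let `N` be the number of integers
`0 ≤ j < e` of the form `k i + l p ^ (s - i)` with `0 ≤ i ≤ s`, `l ≥ 0`.  Then
`|G_s(R)| ≥ q ^ N`, with equality if `s ≤ 1`, or `p ∤ k`, or `k = e` (that is, `p = 0` in `R`).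
-/

open Matrix

namespace Pool.Agent.Results.MP_d6eb29_al.CirculantUnitDet

universe u

/-- The circulant matrix `cir(a_1, …, a_n)` with first row `a`.  Indices run over `0, …, n - 1`
and the entry `(i, j)` is `a ((j - i) mod n)` (subtraction of `Fin n` is modulo `n`). -/
def cir {R : Type u} (n : ℕ) (a : Fin n → R) : Matrix (Fin n) (Fin n) R :=
  Matrix.of fun i j => a (j - i)

/-- `c_n(R, a)`, the number of `n × n` circulant matrices over `R` of determinant `a`. -/
noncomputable def cnum {R : Type u} [CommRing R] (n : ℕ) (a : R) : ℕ :=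
  Nat.card {A : Matrix (Fin n) (Fin n) R // (∃ v : Fin n → R, A = cir n v) ∧ A.det = a}

/-- `G_s(R)`, the set of all `∑_{i ≤ s} p ^ i * x_i ^ (p ^ (s - i))`. -/
def wittSums (p s : ℕ) (R : Type u) [CommRing R] : Set R :=
  {a | ∃ x : ℕ → R, a = ∑ i ∈ Finset.range (s + 1), (p : R) ^ i * x i ^ p ^ (s - i)}

/-- the number of integers `0 ≤ j < e` of the form `k i + l p ^ (s - i)`, `0 ≤ i ≤ s`, `l ≥ 0` -/
noncomputable def numVal (p k s e : ℕ) : ℕ :=
  Nat.card {j : ℕ // j < e ∧ ∃ i ≤ s, ∃ l, j = k * i + l * p ^ (s - i)}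

open Classical in
theorem numVal_eq (p k s e : ℕ) :
    numVal p k s e = ((Finset.range e).filter (Cir.InS p k s)).card := by
  have e1 : {j : ℕ // j < e ∧ ∃ i ≤ s, ∃ l, j = k * i + l * p ^ (s - i)} ≃
      {j : ℕ // j ∈ (Finset.range e).filter (Cir.InS p k s)} := Equiv.subtypeEquivRight (by
    intro j
    rw [Finset.mem_filter, Finset.mem_range]
    rfl)
  unfold numVal
  rw [Nat.card_congr e1, Nat.card_eq_fintype_card, Fintype.card_coe]

theorem wittSums_eq (p s : ℕ) [Fact p.Prime] (R : Type u) [CommRing R] :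
    wittSums p s R = (Cir.G p R s : Set R) := by
  ext a
  exact (Cir.mem_G p s a).symm

theorem cnum_eq {R : Type u} [CommRing R] (n : ℕ) [NeZero n] (a : R) :
    cnum n a = Nat.card {v : ZMod n → R // (circulant v).det = a} := by
  obtain ⟨k, rfl⟩ : ∃ k, n = k + 1 := ⟨n - 1, by have := NeZero.pos n; omega⟩
  have h1 : Nat.card {v : ZMod (k + 1) → R // (circulant v).det = a} =
      Nat.card {v : Fin (k + 1) → R // (circulant v).det = a} := rfl
  rw [h1]
  have hdet : ∀ v : Fin (k + 1) → R, (cir (k + 1) v).det = (circulant v).det := by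
    intro v
    rw [← det_transpose]
    rfl
  let F : {v : Fin (k + 1) → R // (circulant v).det = a} →
      {A : Matrix (Fin (k + 1)) (Fin (k + 1)) R // (∃ v : Fin (k + 1) → R, A = cir (k + 1) v) ∧
        A.det = a} := fun v => ⟨cir (k + 1) v.1, ⟨v.1, rfl⟩, by rw [hdet, v.2]⟩
  refine (Nat.card_congr (Equiv.ofBijective F ⟨?_, ?_⟩)).symm
  · intro v v' h
    have h2 : cir (k + 1) v.1 = cir (k + 1) v'.1 := congrArg Subtype.val h
    apply Subtype.ext
    ext j
    have h3 := congrFun (congrFun h2 0) j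
    simpa [cir] using h3
  · rintro ⟨_, ⟨v, rfl⟩, h⟩
    exact ⟨⟨v, by rw [← hdet, h]⟩, rfl⟩

theorem result (R : Type u) [CommRing R] [Finite R] [Nontrivial R]
    -- `R` is a chain ring
    (hR : ∀ I J : Ideal R, I ≤ J ∨ J ≤ I)
    -- its maximal ideal is `γ R` and its nilpotency index is `e`
    (γ : R) (hγ : (Ideal.span {γ}).IsMaximal)
    (e : ℕ) (he : IsLeast {j : ℕ | 0 < j ∧ γ ^ j = 0} e)
    -- its residue field has `q = p ^ f` elements
    (p f q : ℕ) (hp : p.Prime) (hq : q = p ^ f) (hRq : Nat.card (R ⧸ Ideal.span {γ}) = q)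
    -- `n = p ^ s * m` with `p ∤ m`
    (s m n : ℕ) (hm : ¬ p ∣ m) (hn : n = p ^ s * m) :
    -- the value of `c_n(R, a)` for every unit `a`
    (∀ a : R, IsUnit a → a ∉ wittSums p s R → cnum n a = 0) ∧
    (∀ a : R, IsUnit a → a ∈ wittSums p s R →
      (cnum n a : ℚ) = (q : ℚ) ^ (e * n) / Nat.card (wittSums p s R) *
        ∏ d ∈ m.divisors.erase 1,
          (1 - 1 / (q : ℚ) ^ orderOf (q : ZMod d)) ^ (d.totient / orderOf (q : ZMod d))) ∧
    -- when all units are determinants, and when `c_n(R, ·)` is constant on the units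
    ((∀ a : R, IsUnit a → 0 < cnum n a) ↔ (¬ p ∣ n ∨ Ideal.span {(p : R)} = Ideal.span {γ})) ∧
    ((∀ a b : R, IsUnit a → IsUnit b → cnum n a = cnum n b) ↔
      (¬ p ∣ n ∨ Ideal.span {(p : R)} = Ideal.span {γ})) ∧
    -- the size of `G_s(R)`, where `p R = γ ^ k R`
    (∀ k ≤ e, Ideal.span {(p : R)} = Ideal.span {γ ^ k} →
      q ^ numVal p k s e ≤ Nat.card (wittSums p s R) ∧
      ((s ≤ 1 ∨ ¬ p ∣ k ∨ k = e) → Nat.card (wittSums p s R) = q ^ numVal p k s e)) := by
  have : Fact p.Prime := ⟨hp⟩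
  have hloc : IsLocalRing R := Cir.isLocal_of_chain hR
  have hmax : IsLocalRing.maximalIdeal R = Ideal.span {γ} := (IsLocalRing.eq_maximalIdeal hγ).symm
  obtain ⟨⟨hepos, he0⟩, hmin⟩ := he
  have he' : ∀ j < e, γ ^ j ≠ 0 := by
    intro j hj h0
    rcases Nat.eq_zero_or_pos j with rfl | hj0
    · rw [pow_zero] at h0
      exact one_ne_zero h0
    · have := hmin (show j ∈ {j : ℕ | 0 < j ∧ γ ^ j = 0} from ⟨hj0, h0⟩)
      omega
  subst hq
  have hres : Nat.card (IsLocalRing.ResidueField R) = p ^ f := by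
    rw [← hRq]
    exact Nat.card_congr (Ideal.quotEquivOfEq hmax).toEquiv
  have hm0 : m ≠ 0 := fun h => hm (h ▸ dvd_zero p)
  have hn0 : NeZero n := ⟨by
    rw [hn]
    exact mul_ne_zero (pow_ne_zero _ hp.ne_zero) hm0⟩
  have hcardR : Nat.card R = (p ^ f) ^ e := Cir.card_R hmax he0 he' _ hres
  have hG : wittSums p s R = (Cir.G p R s : Set R) := wittSums_eq p s R
  have hsn : s = 0 ↔ ¬ p ∣ n := by
    constructor
    · rintro rfl
      rwa [hn, pow_zero, one_mul]
    · intro h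
      by_contra hs
      apply h
      rw [hn]
      exact (dvd_pow_self p hs).mul_right m
  have hpos : ∀ a : R, IsUnit a → (0 < cnum n a ↔ a ∈ Cir.G p R s) := by
    intro a ha
    rw [cnum_eq, ← Cir.isDet_iff p f s m n hn hm hres ha, Nat.card_pos_iff]
    constructor
    · rintro ⟨⟨v⟩, _⟩
      exact ⟨v.1, v.2⟩
    · rintro ⟨v, hv⟩
      exact ⟨⟨⟨v, hv⟩⟩, inferInstance⟩
  have hall : (∀ a : R, IsUnit a → 0 < cnum n a) ↔
      (¬ p ∣ n ∨ Ideal.span {(p : R)} = Ideal.span {γ}) := by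
    rw [← hsn, ← Cir.all_units_iff hmax he0 he' p f hres s]
    exact forall_congr' fun a => ⟨fun h ha => (hpos a ha).1 (h ha), fun h ha => (hpos a ha).2 (h ha)⟩
  refine ⟨?_, ?_, hall, ?_, ?_⟩
  · intro a ha haG
    rw [hG] at haG
    have := mt (hpos a ha).1 haG
    omega
  · intro a ha haG
    rw [hG] at haG ⊢
    rw [cnum_eq, Cir.count_formula p f s m n hn hm hres ha haG, hcardR]
    push_cast
    rw [← pow_mul, ← pow_mul]
  · rw [← hall]
    constructor
    · intro h a ha
      rw [h a 1 ha isUnit_one, hpos 1 isUnit_one]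
      exact one_mem _
    · intro h a b ha hb
      have hA := (Cir.isDet_iff p f s m n hn hm hres ha).2 ((hpos a ha).1 (h a ha))
      have hB := (Cir.isDet_iff p f s m n hn hm hres hb).2 ((hpos b hb).1 (h b hb))
      rw [cnum_eq, cnum_eq]
      exact Cir.fiber_eq ha hb hA hB
  · intro k hk hpk
    rw [numVal_eq, hG]
    exact ⟨Cir.card_G_ge hmax he0 he' p f hres hk hpk,
      fun h => Cir.card_G_tame hmax he0 he' p f hres hk hpk h⟩

end Pool.Agent.Results.MP_d6eb29_al.CirculantUnitDet
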