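import Pool.Agent.X254.Circ10

/-!
# MP_d6eb29_al: `c_n(R, 1)` is not a function of `n`, `q`, `e` and the ramification index

We exhibit two commutative finite chain rings with the same residue field `F_2`, the same
nilpotency index `e = 8`, the same `k = 4` with `2 R = γ ^ 4 R` (so the same order `256`), for
which `c_4(R, 1)` differs.  They are `(ℤ/4)[X]/(X ^ 4 - 2)` and `(ℤ/4)[X]/(X ^ 4 - 2 X - 2)`.
-/

open Matrix

namespace Pool.Agent.Results.MP_d6eb29_al.WildDependence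

universe u

/-- The circulant matrix `cir(a_1, …, a_n)` with first row `a`.  Indices run over `0, …, n - 1`
and the entry `(i, j)` is `a ((j - i) mod n)` (subtraction of `Fin n` is modulo `n`). -/
def cir {R : Type u} (n : ℕ) (a : Fin n → R) : Matrix (Fin n) (Fin n) R :=
  Matrix.of fun i j => a (j - i)

/-- `c_n(R, a)`, the number of `n × n` circulant matrices over `R` of determinant `a`. -/
noncomputable def cnum {R : Type u} [CommRing R] (n : ℕ) (a : R) : ℕ :=
  Nat.card {A : Matrix (Fin n) (Fin n) R // (∃ v : Fin n → R, A = cir n v) ∧ A.det = a}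

/-- `R` is a commutative finite chain ring with maximal ideal `γ R`, nilpotency index `e`, residue
field of `p ^ f` elements, and `p R = γ ^ k R`. -/
def IsChainRing (R : Type u) [CommRing R] (γ : R) (p f e k : ℕ) : Prop :=
  Finite R ∧ Nontrivial R ∧ (∀ I J : Ideal R, I ≤ J ∨ J ≤ I) ∧ (Ideal.span {γ}).IsMaximal ∧
    IsLeast {j : ℕ | 0 < j ∧ γ ^ j = 0} e ∧ Nat.card (R ⧸ Ideal.span {γ}) = p ^ f ∧
    Ideal.span {(p : R)} = Ideal.span {γ ^ k}

theorem cnum_eq {R : Type u} [CommRing R] (n : ℕ) [NeZero n] (a : R) :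
    cnum n a = Nat.card {v : ZMod n → R // (circulant v).det = a} := by
  obtain ⟨k, rfl⟩ : ∃ k, n = k + 1 := ⟨n - 1, by have := NeZero.pos n; omega⟩
  have h1 : Nat.card {v : ZMod (k + 1) → R // (circulant v).det = a} =
      Nat.card {v : Fin (k + 1) → R // (circulant v).det = a} := rfl
  rw [h1]
  have hdet : ∀ v : Fin (k + 1) → R, (cir (k + 1) v).det = (circulant v).det := by
    intro v
    rw [← det_transpose]
    rfl
  let F : {v : Fin (k + 1) → R // (circulant v).det = a} →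
      {A : Matrix (Fin (k + 1)) (Fin (k + 1)) R // (∃ v : Fin (k + 1) → R, A = cir (k + 1) v) ∧
        A.det = a} := fun v => ⟨cir (k + 1) v.1, ⟨v.1, rfl⟩, by rw [hdet, v.2]⟩
  refine (Nat.card_congr (Equiv.ofBijective F ⟨?_, ?_⟩)).symm
  · intro v v' h
    have h2 : cir (k + 1) v.1 = cir (k + 1) v'.1 := congrArg Subtype.val h
    apply Subtype.ext
    ext j
    have h3 := congrFun (congrFun h2 0) j
    simpa [cir] using h3
  · rintro ⟨_, ⟨v, rfl⟩, h⟩
    exact ⟨⟨v, by rw [← hdet, h]⟩, rfl⟩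

theorem isChain_Rc (c : ZMod 4) : IsChainRing (Cir.Rc c) (Cir.gam c) 2 1 8 4 := by
  have hmax := Cir.max_Rc c
  refine ⟨inferInstance, inferInstance, Cir.chain_Rc hmax (Cir.gam_pow_eight c), ?_, ?_, ?_,
    Cir.two_Rc c⟩
  · rw [← hmax]
    infer_instance
  · refine ⟨⟨by norm_num, Cir.gam_pow_eight c⟩, ?_⟩
    rintro j ⟨_, hj⟩
    by_contra hlt
    exact Cir.ne_Rc c j (by omega) hj
  · rw [← Cir.res_Rc c]
    exact Nat.card_congr (Ideal.quotEquivOfEq hmax.symm).toEquiv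

theorem cnum_Rc (c : ZMod 4) :
    (cnum 4 (1 : Cir.Rc c) : ℚ) = (256 : ℚ) ^ 4 / Nat.card (Cir.G 2 (Cir.Rc c) 2) := by
  have h1 := Cir.count_formula (R := Cir.Rc c) 2 1 2 1 4 (by norm_num) (by norm_num)
    (Cir.res_Rc c) isUnit_one (one_mem _)
  rw [cnum_eq, h1, (Cir.finite_Rc c).2]
  simp

theorem result : ∃ (R R' : Type) (_ : CommRing R) (_ : CommRing R') (γ : R) (γ' : R'),
    IsChainRing R γ 2 1 8 4 ∧ IsChainRing R' γ' 2 1 8 4 ∧ cnum 4 (1 : R) ≠ cnum 4 (1 : R') := by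
  refine ⟨Cir.Rc 0, Cir.Rc 1, inferInstance, inferInstance, Cir.gam 0, Cir.gam 1, isChain_Rc 0,
    isChain_Rc 1, ?_⟩
  intro h
  have h0 := cnum_Rc 0
  have h1 := cnum_Rc 1
  rw [h, h1, Cir.card_zero] at h0
  have h2 := Cir.card_one
  have h3 : ((2 ^ 4 : ℕ) : ℚ) ≤ Nat.card (Cir.G 2 (Cir.Rc 1) 2) := by exact_mod_cast h2
  set g : ℚ := (Nat.card (Cir.G 2 (Cir.Rc 1) 2) : ℚ)
  have h4 : (0 : ℚ) < g := lt_of_lt_of_le (by norm_num) h3
  rw [div_eq_div_iff h4.ne' (by norm_num)] at h0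
  push_cast at h0 h3
  linarith

end Pool.Agent.Results.MP_d6eb29_al.WildDependence
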